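import Pool.Agent.K1H88.DW.Stm
import Pool.Agent.K1H30.DF.Min

set_option autoImplicit false
set_option linter.unusedSectionVars false

/-! `S_MIN` for all line bundles: minimisation of the quotient of the product of the norms of the
vectors and the local factors of the height. -/

namespace Pool.Agent.K1H31.DW

open Pool.Agent.K1H88.DW
open Pool.Agent.K1H88.DF (EmbU deg Distinct S_CARD S_TRANS S_CONJ S_ELT)
open Pool.Agent.K1H88.DP (Kp pl vn cont Emb S_FIN S_HALL S_UNR)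
open Pool.Agent.K1H99.DP (vn_nonneg pl_self norm_pl_le rel_equiv norm_nat_le norm_nat_eq
  norm_sub_le norm_add_le)
open Pool.Agent.K1H30.DF (ev_lin pl_lin Good good_finite vn_pos norm_tau cont_eq distinct_lin
  prod_emb)
open scoped Classical

section count

variable (F : Type) [Field F] [NumberField F] {ι : Type} [Fintype ι] (E : ι → Type)
  [∀ k, Field (E k)] [∀ k, NumberField (E k)] [∀ k, Algebra F (E k)] (a : ι → ℕ)

theorem card_fib (L : Type) [Field L] [NumberField L] [Algebra F L]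
    (K : Type) [Field K] [CharZero K] [IsAlgClosed K] (u : F →+* K) :
    Nat.card {s : L →+* K // s.comp (algebraMap F L) = u} = Module.finrank F L := by
  let := u.toAlgebra
  have : FiniteDimensional F L := Module.Finite.of_restrictScalars_finite ℚ F L
  let eq : (L →ₐ[F] K) ≃ {s : L →+* K // s.comp (algebraMap F L) = u} :=
    { toFun := fun f => ⟨f.toRingHom, f.comp_algebraMap⟩
      invFun := fun s => { s.1 with commutes' := fun r => congrArg (fun g : F →+* K => g r) s.2 }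
      left_inv := fun f => by ext; rfl
      right_inv := fun s => by ext; rfl }
  rw [← Nat.card_congr eq, Nat.card_eq_fintype_card, AlgHom.card]

/-- the sum of the weights above `u` is the total weight -/
theorem sum_a {K : Type} [Field K] [CharZero K] [IsAlgClosed K] (u : F →+* K) :
    ∑ i : EmbU F E u, a i.1.1 = tot F E a := by
  let eq : EmbU F E u ≃ Σ k, {s : E k →+* K // s.comp (algebraMap F (E k)) = u} :=
    { toFun := fun i => ⟨i.1.1, ⟨i.1.2, i.2⟩⟩
      invFun := fun j => ⟨⟨j.1, j.2.1⟩, j.2.2⟩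
      left_inv := fun _ => rfl
      right_inv := fun _ => rfl }
  rw [Fintype.sum_equiv eq (fun i : EmbU F E u => a i.1.1)
    (fun j : Σ k, {s : E k →+* K // s.comp (algebraMap F (E k)) = u} => a j.1) (fun _ => rfl),
    Fintype.sum_sigma]
  unfold tot
  refine Finset.sum_congr rfl fun k _ => ?_
  change ∑ _y : {s : E k →+* K // s.comp (algebraMap F (E k)) = u}, a k = _
  rw [Finset.sum_const, Finset.card_univ, smul_eq_mul, mul_comm, ← Nat.card_eq_fintype_card,
    card_fib]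

theorem card_cop {K : Type} [Field K] [CharZero K] [IsAlgClosed K] (u : F →+* K) :
    Fintype.card (Cop F E a u) = tot F E a := by
  rw [Fintype.card_sigma, ← sum_a F E a u]
  exact Finset.sum_congr rfl fun i _ => Fintype.card_fin _

theorem card_sub {K : Type} [Field K] [CharZero K] (u : F →+* K) (P : EmbU F E u → Prop) :
    Nat.card {t : Cop F E a u // P t.1} = ∑ i ∈ Finset.univ.filter P, a i.1.1 := by
  rw [Nat.card_congr (Equiv.subtypeSigmaEquiv (fun i : EmbU F E u => Fin (a i.1.1)) P),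
    Nat.card_sigma]
  rw [← Finset.sum_subtype_eq_sum_filter, Finset.subtype_univ]
  refine Finset.sum_congr rfl fun i _ => ?_
  rw [Nat.card_eq_fintype_card, Fintype.card_fin]

theorem exists_perm (hH : S_HALL) (ha2 : ∀ k, 2 * a k < tot F E a) {K : Type} [Field K]
    [CharZero K] [IsAlgClosed K] (u : F →+* K) :
    ∃ π : Equiv.Perm (Cop F E a u), ∀ s, ¬ s.1 = (π s).1 := by
  refine hH (Cop F E a u) (fun s t => s.1 = t.1)
    ⟨fun _ => rfl, fun h => h.symm, fun h h' => h.trans h'⟩ (fun s => ?_)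
  rw [card_sub F E a u (fun i => s.1 = i), card_cop]
  refine le_trans (le_of_eq ?_) (ha2 s.1.1.1).le
  congr 1
  refine Finset.sum_eq_single s.1 (fun b hb hne => ?_) (fun h => ?_)
  · simp only [Finset.mem_filter, Finset.mem_univ, true_and] at hb
    exact absurd hb.symm hne
  · simp only [Finset.mem_filter, Finset.mem_univ, true_and, not_true_eq_false] at h

end count

section main

variable (F : Type) [Field F] [NumberField F] {ι : Type} [Fintype ι] (E : ι → Type)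
  [∀ k, Field (E k)] [∀ k, NumberField (E k)] [∀ k, Algebra F (E k)] (a : ι → ℕ)

theorem le_loc {K : Type} [NormedField K] [CharZero K] (u : F →+* K) (x y : ∀ k, E k)
    (π : Equiv.Perm (Cop F E a u)) :
    ∏ s, ‖pl E x y s.1.1 (π s).1.1‖ ≤ loc F E a u x y := by
  unfold loc
  have hb : BddAbove (Set.range
      (fun π : Equiv.Perm (Cop F E a u) => ∏ s, ‖pl E x y s.1.1 (π s).1.1‖)) :=
    (Set.finite_range _).bddAbove
  exact le_ciSup hb π

/-- the product of the norms of the vectors, over all copies -/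
noncomputable def VP {q : Nat.Primes} (u : F →+* Kp q) (x y : ∀ k, E k) : ℝ :=
  ∏ s : Cop F E a u, vn E x y s.1.1

theorem VP_eq {q : Nat.Primes} (u : F →+* Kp q) (x y : ∀ k, E k) :
    VP F E a u x y = ∏ i : EmbU F E u, vn E x y i.1 ^ a i.1.1 := by
  unfold VP
  rw [Fintype.prod_sigma]
  refine Finset.prod_congr rfl fun i _ => ?_
  change ∏ _y : Fin (a i.1.1), vn E x y i.1 = _
  rw [Finset.prod_const, Finset.card_univ, Fintype.card_fin]

theorem loc_le {q : Nat.Primes} (u : F →+* Kp q) (x y : ∀ k, E k) :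
    loc F E a u x y ≤ VP F E a u x y ^ 2 := by
  refine ciSup_le fun π => ?_
  calc ∏ s, ‖pl E x y s.1.1 (π s).1.1‖
      ≤ ∏ s, vn E x y s.1.1 * vn E x y (π s).1.1 :=
        Finset.prod_le_prod (fun _ _ => norm_nonneg _) fun s _ => norm_pl_le x y _ _
    _ = VP F E a u x y ^ 2 := by
        unfold VP
        rw [Finset.prod_mul_distrib, Equiv.prod_comp π (fun s => vn E x y s.1.1), sq]

theorem loc_pos (hH : S_HALL) (hT : S_TRANS) (ha2 : ∀ k, 2 * a k < tot F E a) (x y : ∀ k, E k)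
    (hD : Distinct F E x y) {q : Nat.Primes} (u : F →+* Kp q) : 0 < loc F E a u x y := by
  obtain ⟨π, hπ⟩ := exists_perm F E a hH ha2 u
  refine lt_of_lt_of_le ?_ (le_loc F E a u x y π)
  exact Finset.prod_pos fun s _ => norm_pos_iff.mpr ((hT F ι E x y hD).1 q u _ _ (hπ s))

theorem loc_lin {q : Nat.Primes} (u : F →+* Kp q) (x y : ∀ k, E k) (α β γ δ : F) :
    loc F E a u (α • x + β • y) (γ • x + δ • y) =
      ‖u (α * δ - β * γ)‖ ^ tot F E a * loc F E a u x y := by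
  unfold loc
  rw [Real.mul_iSup_of_nonneg (by positivity)]
  refine iSup_congr fun π => ?_
  rw [← card_cop F E a u, ← Finset.card_univ, ← Finset.prod_const, ← Finset.prod_mul_distrib]
  refine Finset.prod_congr rfl fun s _ => ?_
  rw [pl_lin, norm_mul]

/-- the functional at `u` -/
noncomputable def Du {q : Nat.Primes} (u : F →+* Kp q) (x y : ∀ k, E k) : ℝ :=
  VP F E a u x y ^ 2 / loc F E a u x y

/-- the local part of the functional -/
noncomputable def Dp (x y : ∀ k, E k) (q : Nat.Primes) : ℝ := ∏ u : F →+* Kp q, Du F E a u x y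

theorem one_le_Du (hH : S_HALL) (hT : S_TRANS) (ha2 : ∀ k, 2 * a k < tot F E a) (x y : ∀ k, E k)
    (hD : Distinct F E x y) {q : Nat.Primes} (u : F →+* Kp q) : 1 ≤ Du F E a u x y := by
  unfold Du
  rw [one_le_div (loc_pos F E a hH hT ha2 x y hD u)]
  exact loc_le F E a u x y

theorem one_le_Dp (hH : S_HALL) (hT : S_TRANS) (ha2 : ∀ k, 2 * a k < tot F E a) (x y : ∀ k, E k)
    (hD : Distinct F E x y) (q : Nat.Primes) : 1 ≤ Dp F E a x y q :=
  Finset.one_le_prod fun u _ => one_le_Du F E a hH hT ha2 x y hD u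

theorem loc_good (hH : S_HALL) (ha2 : ∀ k, 2 * a k < tot F E a) (x y : ∀ k, E k)
    (q : Nat.Primes) (h : Good F E x y q) (u : F →+* Kp q) : loc F E a u x y = 1 := by
  apply le_antisymm
  · refine ciSup_le fun π => ?_
    refine Finset.prod_le_one (fun i _ => norm_nonneg _) fun s _ => ?_
    by_cases hi : s.1 = (π s).1
    · rw [← hi, pl_self, norm_zero]; exact zero_le_one
    · exact (h.1 u _ _ hi).le
  · obtain ⟨π, hπ⟩ := exists_perm F E a hH ha2 u
    refine le_trans (le_of_eq ?_) (le_loc F E a u x y π)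
    exact (Finset.prod_eq_one fun s _ => h.1 u _ _ (hπ s)).symm

theorem Dp_good (hH : S_HALL) (ha2 : ∀ k, 2 * a k < tot F E a) (x y : ∀ k, E k) (q : Nat.Primes)
    (h : Good F E x y q) : Dp F E a x y q = 1 := by
  refine Finset.prod_eq_one fun u _ => ?_
  unfold Du
  rw [loc_good F E a hH ha2 x y q h u]
  have : VP F E a u x y = 1 := Finset.prod_eq_one fun s _ => h.2 _
  rw [this]
  norm_num

/-- the functional -/
noncomputable def DD (x y : ∀ k, E k) : ℝ := ∏ᶠ q : Nat.Primes, Dp F E a x y q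

theorem DD_eq (hH : S_HALL) (ha2 : ∀ k, 2 * a k < tot F E a) (x y : ∀ k, E k)
    (T : Finset Nat.Primes) (h : ∀ q, ¬ Good F E x y q → q ∈ T) :
    DD F E a x y = ∏ q ∈ T, Dp F E a x y q := by
  refine finprod_eq_prod_of_mulSupport_subset _ fun q hq => ?_
  by_contra hcon
  exact hq (Dp_good F E a hH ha2 x y q (by_contra fun hg => hcon (h q hg)))

theorem one_le_DD (hH : S_HALL) (hC : S_CARD) (hF : S_FIN) (hT : S_TRANS)
    (ha2 : ∀ k, 2 * a k < tot F E a) (x y : ∀ k, E k)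
    (hD : Distinct F E x y) (hn : 3 ≤ deg F E) : 1 ≤ DD F E a x y := by
  rw [DD_eq F E a hH ha2 x y (good_finite F E hC hF hT x y hD hn).toFinset
    fun q hq => by simpa using hq]
  exact Finset.one_le_prod fun q _ => one_le_Dp F E a hH hT ha2 x y hD q

/-- Change of the part at `u`. -/
theorem Du_step (hH : S_HALL) (hT : S_TRANS) (ha2 : ∀ k, 2 * a k < tot F E a)
    (x y : ∀ k, E k) (hD : Distinct F E x y) {q : Nat.Primes} (u : F →+* Kp q) (A : ℝ) (hA : 0 < A)
    (S : Finset (EmbU F E u)) (α β γ δ : F) (hdet : ‖u (α * δ - β * γ)‖ = A⁻¹)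
    (h1 : ∀ i ∈ S, vn E (α • x + β • y) (γ • x + δ • y) i.1 ≤ vn E x y i.1)
    (h2 : ∀ i : EmbU F E u, vn E (α • x + β • y) (γ • x + δ • y) i.1 ≤ A⁻¹ * vn E x y i.1) :
    Du F E a u (α • x + β • y) (γ • x + δ • y) ≤
      (A⁻¹) ^ (2 * (tot F E a - ∑ i ∈ S, a i.1.1)) * A ^ tot F E a * Du F E a u x y := by
  set t : EmbU F E u → ℝ := fun i => if i ∈ S then 1 else A⁻¹ with ht
  have htpos : ∀ i, 0 < t i := by
    intro i
    simp only [ht]
    split_ifs
    · exact one_pos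
    · exact inv_pos.mpr hA
  have hvt : ∀ i : EmbU F E u, vn E (α • x + β • y) (γ • x + δ • y) i.1 ≤ t i * vn E x y i.1 := by
    intro i
    simp only [ht]
    split_ifs with h
    · rw [one_mul]; exact h1 i h
    · exact h2 i
  have hsum : ∑ i ∈ Finset.univ.filter (fun i : EmbU F E u => i ∉ S), a i.1.1 =
      tot F E a - ∑ i ∈ S, a i.1.1 := by
    have h := Finset.sum_filter_add_sum_filter_not Finset.univ (fun i : EmbU F E u => i ∈ S)
      (fun i => a i.1.1)
    rw [sum_a, Finset.filter_mem_eq_inter, Finset.univ_inter] at h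
    omega
  have hprod : ∏ i : EmbU F E u, t i ^ a i.1.1 = (A⁻¹) ^ (tot F E a - ∑ i ∈ S, a i.1.1) := by
    rw [← hsum, ← Finset.prod_pow_eq_pow_sum]
    rw [← Finset.prod_filter_mul_prod_filter_not Finset.univ (fun i : EmbU F E u => i ∈ S)]
    rw [Finset.prod_eq_one, one_mul]
    · refine Finset.prod_congr rfl fun i hi => ?_
      simp only [ht]
      rw [if_neg (Finset.mem_filter.1 hi).2]
    · intro i hi
      simp only [ht]
      rw [if_pos (Finset.mem_filter.1 hi).2, one_pow]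
  have hVP : VP F E a u (α • x + β • y) (γ • x + δ • y) ≤
      (A⁻¹) ^ (tot F E a - ∑ i ∈ S, a i.1.1) * VP F E a u x y := by
    rw [VP_eq, VP_eq, ← hprod, ← Finset.prod_mul_distrib]
    refine Finset.prod_le_prod (fun i _ => pow_nonneg (vn_nonneg _ _ _) _) fun i _ => ?_
    rw [← mul_pow]
    exact pow_le_pow_left₀ (vn_nonneg _ _ _) (hvt i) _
  have hVP0 : 0 ≤ VP F E a u (α • x + β • y) (γ • x + δ • y) :=
    Finset.prod_nonneg fun _ _ => vn_nonneg _ _ _
  have hl := loc_pos F E a hH hT ha2 x y hD u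
  unfold Du
  rw [loc_lin, hdet]
  have hsq := pow_le_pow_left₀ hVP0 hVP 2
  have h3 : 0 < (A⁻¹) ^ tot F E a * loc F E a u x y := by positivity
  rw [div_le_iff₀ h3]
  refine hsq.trans (le_of_eq ?_)
  rw [mul_comm 2 (tot F E a - _), pow_mul, mul_pow, inv_pow A (tot F E a)]
  field_simp

theorem Du_all (hH : S_HALL) (hT : S_TRANS) (ha2 : ∀ k, 2 * a k < tot F E a)
    (x y : ∀ k, E k) (hD : Distinct F E x y) {q : Nat.Primes} (u : F →+* Kp q) (A : ℝ) (hA : 0 < A)
    (α β γ δ : F) (hdet : ‖u (α * δ - β * γ)‖ = A⁻¹)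
    (h2 : ∀ i : EmbU F E u, vn E (α • x + β • y) (γ • x + δ • y) i.1 ≤ A⁻¹ * vn E x y i.1) :
    Du F E a u (α • x + β • y) (γ • x + δ • y) ≤
      (A ^ tot F E a)⁻¹ * Du F E a u x y := by
  have h := Du_step F E a hH hT ha2 x y hD u A hA ∅ α β γ δ hdet (by simp) h2
  refine h.trans (le_of_eq ?_)
  congr 1
  rw [Finset.sum_empty, Nat.sub_zero, two_mul, pow_add, inv_pow]
  have : A ^ tot F E a ≠ 0 := by positivity
  field_simp

theorem Du_cluster (hH : S_HALL) (hT : S_TRANS) (ha2 : ∀ k, 2 * a k < tot F E a)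
    (x y : ∀ k, E k) (hD : Distinct F E x y) {q : Nat.Primes} (u : F →+* Kp q) (A : ℝ) (hA : 0 < A) (hA1 : A ≤ 1)
    (S : Finset (EmbU F E u)) (hS : tot F E a < 2 * ∑ i ∈ S, a i.1.1)
    (α β γ δ : F) (hdet : ‖u (α * δ - β * γ)‖ = A⁻¹)
    (h1 : ∀ i ∈ S, vn E (α • x + β • y) (γ • x + δ • y) i.1 ≤ vn E x y i.1)
    (h2 : ∀ i : EmbU F E u, vn E (α • x + β • y) (γ • x + δ • y) i.1 ≤ A⁻¹ * vn E x y i.1) :
    Du F E a u (α • x + β • y) (γ • x + δ • y) ≤
      (A ^ tot F E a)⁻¹ * A ^ (tot F E a + 1) * Du F E a u x y := by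
  have h := Du_step F E a hH hT ha2 x y hD u A hA S α β γ δ hdet h1 h2
  refine h.trans (mul_le_mul_of_nonneg_right ?_
    (zero_le_one.trans (one_le_Du F E a hH hT ha2 x y hD u)))
  have hle : ∑ i ∈ S, a i.1.1 ≤ tot F E a := by
    rw [← sum_a F E a u]
    exact Finset.sum_le_sum_of_subset (Finset.subset_univ S)
  set n := tot F E a with hnd
  set s := ∑ i ∈ S, a i.1.1 with hs
  have e1 : n = 2 * (n - s) + (2 * s - n) := by omega
  have e2 : (A⁻¹) ^ (2 * (n - s)) * A ^ n = A ^ (2 * s - n) := by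
    rw [inv_pow]
    conv_lhs => rw [e1]
    rw [show 2 * (2 * (n - s) + (2 * s - n) - s) = 2 * (n - s) by omega, pow_add,
      inv_mul_cancel_left₀ (by positivity)]
  have e3 : (A ^ n)⁻¹ * A ^ (n + 1) = A := by
    rw [pow_succ, inv_mul_cancel_left₀ (by positivity)]
  rw [e2, e3]
  calc A ^ (2 * s - n) ≤ A ^ 1 := pow_le_pow_of_le_one hA.le hA1 (by omega)
    _ = A := pow_one A

/-- transport of a cluster -/
theorem transport {p : Nat.Primes} (u₀ u : F →+* Kp p)
    (τ : Kp p ≃ₐ[ℚ_[(p : ℕ)]] Kp p) (hτ : ∀ z, τ (u₀ z) = u z) (S : Finset (EmbU F E u₀)) :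
    ∃ S' : Finset (EmbU F E u), ∑ i ∈ S', a i.1.1 = ∑ i ∈ S, a i.1.1 ∧ ∀ j ∈ S', ∃ i ∈ S,
      ∀ w : ∀ k, E k, j.1.2 (w j.1.1) = τ (i.1.2 (w i.1.1)) := by
  set g : EmbU F E u₀ → EmbU F E u := fun i =>
    ⟨⟨i.1.1, (τ : Kp p →+* Kp p).comp i.1.2⟩, by
      ext z
      have h := RingHom.congr_fun i.2 z
      rw [RingHom.comp_apply] at h
      show τ (i.1.2 (algebraMap F (E i.1.1) z)) = u z
      rw [h, hτ]⟩ with hg
  have hinj : Function.Injective g := by
    rintro ⟨⟨k, σ⟩, h⟩ ⟨⟨k', σ'⟩, h'⟩ hgg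
    have h1 := Subtype.mk.inj hgg
    obtain ⟨h2, h3⟩ := Sigma.mk.inj_iff.mp h1
    obtain rfl : k = k' := h2
    have h4 := eq_of_heq h3
    have h5 : σ = σ' := by
      ext z
      have h6 := RingHom.congr_fun h4 z
      exact τ.injective h6
    subst h5
    rfl
  refine ⟨S.map ⟨g, hinj⟩, ?_, ?_⟩
  · rw [Finset.sum_map]
    rfl
  · intro j hj
    obtain ⟨i, hi, rfl⟩ := Finset.mem_map.mp hj
    exact ⟨i, hi, fun w => rfl⟩

theorem global_step (hH : S_HALL) (hC : S_CARD) (hF : S_FIN) (hT : S_TRANS)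
    (ha2 : ∀ k, 2 * a k < tot F E a) (x y : ∀ k, E k)
    (hD : Distinct F E x y) (hn : 3 ≤ deg F E) (a₀ : F) (ha0 : a₀ ≠ 0) (hai : IsIntegral ℤ a₀)
    (α β γ δ : F) (hdet : α * δ - β * γ = a₀⁻¹)
    (hall : ∀ (q : Nat.Primes) (u : F →+* Kp q) (i : EmbU F E u),
      vn E (α • x + β • y) (γ • x + δ • y) i.1 ≤ ‖u a₀‖⁻¹ * vn E x y i.1)
    (p : Nat.Primes) (U : Finset (F →+* Kp p))
    (hclu : ∀ u ∈ U, ∃ S : Finset (EmbU F E u), tot F E a < 2 * ∑ i ∈ S, a i.1.1 ∧
      ∀ i ∈ S, vn E (α • x + β • y) (γ • x + δ • y) i.1 ≤ vn E x y i.1)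
    (hcont : (∏ u ∈ U, ‖u a₀‖) ^ ((tot F E a - 1) * (tot F E a + 1)) ≤
      1 / 2 * cont F a₀ 0 ^ (tot F E a * (tot F E a - 1))) :
    DD F E a (α • x + β • y) (γ • x + δ • y) ^ (tot F E a - 1) ≤
      DD F E a x y ^ (tot F E a - 1) / 2 := by
  have hdet0 : α * δ - β * γ ≠ 0 := by rw [hdet]; exact inv_ne_zero ha0
  have hD' := distinct_lin F E x y hD α β γ δ hdet0
  set n := tot F E a with hnd
  set T : Finset Nat.Primes := insert p (((good_finite F E hC hF hT x y hD hn).toFinset ∪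
    (good_finite F E hC hF hT _ _ hD' hn).toFinset) ∪ (hF F a₀ ha0).toFinset) with hTdef
  have hT1 : ∀ q, ¬ Good F E x y q → q ∈ T := by
    intro q h
    simp only [hTdef, Finset.mem_insert, Finset.mem_union, Set.Finite.mem_toFinset]
    exact Or.inr (Or.inl (Or.inl h))
  have hT2 : ∀ q, ¬ Good F E (α • x + β • y) (γ • x + δ • y) q → q ∈ T := by
    intro q h
    simp only [hTdef, Finset.mem_insert, Finset.mem_union, Set.Finite.mem_toFinset]
    exact Or.inr (Or.inl (Or.inr h))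
  have hT3 : ∀ q : Nat.Primes, (∃ σ : F →+* Kp q, ‖σ a₀‖ ≠ 1) → q ∈ T := by
    intro q h
    simp only [hTdef, Finset.mem_insert, Finset.mem_union, Set.Finite.mem_toFinset]
    exact Or.inr (Or.inr h)
  have hpT : p ∈ T := Finset.mem_insert_self _ _
  have hA : ∀ (q : Nat.Primes) (u : F →+* Kp q), 0 < ‖u a₀‖ := fun q u =>
    norm_pos_iff.mpr ((map_ne_zero u).mpr ha0)
  have hA1 : ∀ (q : Nat.Primes) (u : F →+* Kp q), ‖u a₀‖ ≤ 1 := fun q u =>
    Pool.Agent.K1H10.DP.int_norm_le (hai.map u.toIntAlgHom)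
  have hdetn : ∀ (q : Nat.Primes) (u : F →+* Kp q), ‖u (α * δ - β * γ)‖ = ‖u a₀‖⁻¹ := by
    intro q u
    rw [hdet, map_inv₀, norm_inv]
  have hDu0 : ∀ (q : Nat.Primes) (u : F →+* Kp q), 0 ≤ Du F E a u x y := fun q u =>
    zero_le_one.trans (one_le_Du F E a hH hT ha2 x y hD u)
  have hDu0' : ∀ (q : Nat.Primes) (u : F →+* Kp q),
      0 ≤ Du F E a u (α • x + β • y) (γ • x + δ • y) := fun q u =>
    zero_le_one.trans (one_le_Du F E a hH hT ha2 _ _ hD' u)
  set P : ℝ := (∏ u ∈ U, ‖u a₀‖) ^ (n + 1) with hP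
  have hPpos : 0 < P := pow_pos (Finset.prod_pos fun u _ => hA p u) _
  -- the local estimates
  have hloc : ∀ q, Dp F E a (α • x + β • y) (γ • x + δ • y) q ≤
      ((∏ σ : F →+* Kp q, ‖σ a₀‖) ^ n)⁻¹ * (if q = p then P else 1) *
        Dp F E a x y q := by
    intro q
    by_cases hq : q = p
    · subst hq
      rw [if_pos rfl]
      have h1 : Dp F E a (α • x + β • y) (γ • x + δ • y) q ≤ ∏ u : F →+* Kp q,
          ((‖u a₀‖ ^ n)⁻¹ * (if u ∈ U then ‖u a₀‖ ^ (n + 1) else 1) *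
            Du F E a u x y) := by
        refine Finset.prod_le_prod (fun u _ => hDu0' q u) fun u _ => ?_
        split_ifs with hu
        · obtain ⟨S, hS, hS1⟩ := hclu u hu
          exact Du_cluster F E a hH hT ha2 x y hD u ‖u a₀‖ (hA q u) (hA1 q u) S hS α β γ δ
            (hdetn q u) hS1 (hall q u)
        · rw [mul_one]
          exact Du_all F E a hH hT ha2 x y hD u ‖u a₀‖ (hA q u) α β γ δ (hdetn q u) (hall q u)
      refine h1.trans (le_of_eq ?_)
      rw [Finset.prod_mul_distrib, Finset.prod_mul_distrib, Finset.prod_inv_distrib,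
        Finset.prod_pow, Finset.prod_ite_mem, Finset.univ_inter, Finset.prod_pow]
      rfl
    · rw [if_neg hq, mul_one]
      have h1 : Dp F E a (α • x + β • y) (γ • x + δ • y) q ≤ ∏ u : F →+* Kp q,
          ((‖u a₀‖ ^ n)⁻¹ * Du F E a u x y) := by
        refine Finset.prod_le_prod (fun u _ => hDu0' q u) fun u _ => ?_
        exact Du_all F E a hH hT ha2 x y hD u ‖u a₀‖ (hA q u) α β γ δ (hdetn q u) (hall q u)
      refine h1.trans (le_of_eq ?_)
      rw [Finset.prod_mul_distrib, Finset.prod_inv_distrib, Finset.prod_pow]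
      rfl
  have hDp0 : ∀ q, 0 ≤ Dp F E a x y q := fun q =>
    zero_le_one.trans (one_le_Dp F E a hH hT ha2 x y hD q)
  rw [DD_eq F E a hH ha2 x y T hT1, DD_eq F E a hH ha2 _ _ T hT2]
  have h2 : ∏ q ∈ T, Dp F E a (α • x + β • y) (γ • x + δ • y) q ≤
      ∏ q ∈ T, (((∏ σ : F →+* Kp q, ‖σ a₀‖) ^ n)⁻¹ * (if q = p then P else 1) *
        Dp F E a x y q) :=
    Finset.prod_le_prod (fun q _ => zero_le_one.trans (one_le_Dp F E a hH hT ha2 _ _ hD' q))
      fun q _ => hloc q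
  rw [Finset.prod_mul_distrib, Finset.prod_mul_distrib, Finset.prod_inv_distrib, Finset.prod_pow,
    Finset.prod_ite_eq' T p (fun _ => P), if_pos hpT, ← cont_eq F a₀ T hT3] at h2
  have hc : 0 < cont F a₀ 0 := by
    rw [cont_eq F a₀ T hT3]
    exact Finset.prod_pos fun q _ => Finset.prod_pos fun u _ => hA q u
  have h20 : 0 ≤ ∏ q ∈ T, Dp F E a (α • x + β • y) (γ • x + δ • y) q :=
    Finset.prod_nonneg fun q _ => zero_le_one.trans (one_le_Dp F E a hH hT ha2 _ _ hD' q)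
  refine (pow_le_pow_left₀ h20 h2 (n - 1)).trans ?_
  have h3 : ((cont F a₀ 0 ^ n)⁻¹ * P) ^ (n - 1) ≤ 1 / 2 := by
    rw [mul_pow, inv_pow, ← pow_mul, hP, ← pow_mul, inv_mul_le_iff₀ (by positivity),
      show (n + 1) * (n - 1) = (n - 1) * (n + 1) from mul_comm _ _,
      mul_comm (cont F a₀ 0 ^ (n * (n - 1))) (1 / 2)]
    exact hcont
  have h4 : 0 ≤ ∏ q ∈ T, Dp F E a x y q := Finset.prod_nonneg fun q _ => hDp0 q
  rw [mul_pow]
  calc _ ≤ 1 / 2 * (∏ q ∈ T, Dp F E a x y q) ^ (n - 1) :=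
        mul_le_mul_of_nonneg_right h3 (pow_nonneg h4 _)
    _ = _ := by ring

/-- If a class is too large then the functional can be made smaller. -/
theorem improve (hH : S_HALL) (hC : S_CARD) (hF : S_FIN) (hT : S_TRANS) (hJ : S_CONJ)
    (hR : S_RAT) (ha1' : ∀ k, 1 ≤ a k) (ha2 : ∀ k, 2 * a k < tot F E a)
    (x y : ∀ k, E k) (hD : Distinct F E x y) (hn : 3 ≤ deg F E) (p : Nat.Primes)
    (u₀ : F →+* Kp p) (a₀ : F) (hai : IsIntegral ℤ a₀) (ha0 : a₀ ≠ 0) (ha1 : ‖u₀ a₀‖ < 1)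
    (hU : ∀ U : Finset (F →+* Kp p), (∀ u, u ∈ U ↔ ∀ z, ‖u z‖ = ‖u₀ z‖) →
        (∏ u ∈ U, ‖u a₀‖) ^ ((tot F E a - 1) * (tot F E a + 1)) ≤
          1 / 2 * cont F a₀ 0 ^ (tot F E a * (tot F E a - 1)))
    (S : Finset (EmbU F E u₀)) (hS : tot F E a < 2 * ∑ i ∈ S, a i.1.1)
    (hcl : ∀ i ∈ S, ∀ j, j ∈ S ↔ ‖pl E x y i.1 j.1‖ ≤
      (‖(((tot F E a).factorial : ℕ) : Kp p)‖ * ‖u₀ a₀‖) * (vn E x y i.1 * vn E x y j.1)) :
    ∃ α β γ δ : F, α * δ - β * γ ≠ 0 ∧
      DD F E a (α • x + β • y) (γ • x + δ • y) ^ (tot F E a - 1) ≤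
        DD F E a x y ^ (tot F E a - 1) / 2 := by
  have hle : ∑ i ∈ S, a i.1.1 ≤ tot F E a := by
    rw [← sum_a F E a u₀]
    exact Finset.sum_le_sum_of_subset (Finset.subset_univ S)
  have hcle : S.card ≤ ∑ i ∈ S, a i.1.1 := by
    rw [Finset.card_eq_sum_ones]
    exact Finset.sum_le_sum fun i _ => ha1' _
  have hScard : S.card ≤ tot F E a := hcle.trans hle
  have hSpos : 0 < S.card := by
    rw [Finset.card_pos]
    by_contra hcon
    rw [Finset.not_nonempty_iff_eq_empty] at hcon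
    rw [hcon, Finset.sum_empty] at hS
    omega
  have hA : ∀ (q : Nat.Primes) (u : F →+* Kp q), 0 < ‖u a₀‖ := fun q u =>
    norm_pos_iff.mpr ((map_ne_zero u).mpr ha0)
  have hA1 : ∀ (q : Nat.Primes) (u : F →+* Kp q), ‖u a₀‖ ≤ 1 := fun q u =>
    Pool.Agent.K1H10.DP.int_norm_le (hai.map u.toIntAlgHom)
  have hκ' : ‖(((tot F E a).factorial : ℕ) : Kp p)‖ * ‖u₀ a₀‖ ≤
      ‖((S.card : ℕ) : Kp p)‖ * ‖u₀ a₀‖ := by
    refine mul_le_mul_of_nonneg_right ?_ (norm_nonneg _)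
    obtain ⟨l, hl⟩ : S.card ∣ (tot F E a).factorial := Nat.dvd_factorial hSpos hScard
    rw [hl, Nat.cast_mul, norm_mul]
    have := norm_nat_le p l
    nlinarith [norm_nonneg ((S.card : ℕ) : Kp p)]
  have hvpos := vn_pos F E hC hT x y hD hn p
  obtain ⟨m, hmi, hm⟩ := hR F ι E a p u₀ x y _ ‖u₀ a₀‖ S (fun i => (hvpos i.1).ne')
    (by rw [sum_a]; exact hS) hcl (hA p u₀) ha1 hκ'
  have hm1 : ∀ (q : Nat.Primes) (u : F →+* Kp q), ‖u m‖ ≤ 1 := fun q u =>
    Pool.Agent.K1H10.DP.int_norm_le (hmi.map u.toIntAlgHom)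
  -- the general estimates
  have g1 : ∀ (q : Nat.Primes) (u : F →+* Kp q) (z w : Kp q) (r : ℝ), ‖z - u m * w‖ ≤ r →
      ‖u a₀⁻¹ * z + u (-m * a₀⁻¹) * w‖ ≤ ‖u a₀‖⁻¹ * r := by
    intro q u z w r h
    have e : u a₀⁻¹ * z + u (-m * a₀⁻¹) * w = (u a₀)⁻¹ * (z - u m * w) := by
      rw [map_mul, map_neg, map_inv₀]
      ring
    rw [e, norm_mul, norm_inv]
    exact mul_le_mul_of_nonneg_left h (inv_nonneg.mpr (norm_nonneg _))
  have g2 : ∀ (q : Nat.Primes) (u : F →+* Kp q) (z w : Kp q) (r : ℝ), ‖z‖ ≤ r → ‖w‖ ≤ r →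
      ‖z - u m * w‖ ≤ r := by
    intro q u z w r hz hw
    refine norm_sub_le hz ?_
    rw [norm_mul]
    have := hm1 q u
    nlinarith [norm_nonneg (u m), norm_nonneg w]
  have g3 : ∀ (q : Nat.Primes) (u : F →+* Kp q) (r : ℝ), 0 ≤ r → r ≤ ‖u a₀‖⁻¹ * r := by
    intro q u r hr
    have h1 : 1 ≤ ‖u a₀‖⁻¹ := (one_le_inv₀ (hA q u)).mpr (hA1 q u)
    nlinarith
  set U : Finset (F →+* Kp p) := Finset.univ.filter fun u => ∀ z, ‖u z‖ = ‖u₀ z‖ with hUdef
  have hUm : ∀ u, u ∈ U ↔ ∀ z, ‖u z‖ = ‖u₀ z‖ := fun u => by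
    rw [hUdef, Finset.mem_filter]
    exact ⟨fun h => h.2, fun h => ⟨Finset.mem_univ _, h⟩⟩
  have hcont := hU U hUm
  -- transported clusters
  have htr : ∀ u ∈ U, ∃ S' : Finset (EmbU F E u), tot F E a < 2 * ∑ i ∈ S', a i.1.1 ∧ ∀ j ∈ S',
      ∃ i ∈ S, (‖j.1.2 (x j.1.1) - u m * j.1.2 (y j.1.1)‖ =
          ‖i.1.2 (x i.1.1) - u₀ m * i.1.2 (y i.1.1)‖ ∧
        ‖j.1.2 (y j.1.1) - u m * j.1.2 (x j.1.1)‖ =
          ‖i.1.2 (y i.1.1) - u₀ m * i.1.2 (x i.1.1)‖) ∧ vn E x y j.1 = vn E x y i.1 := by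
    intro u hu
    obtain ⟨τ, hτ⟩ := hJ F p u₀ u (fun z => ((hUm u).mp hu z).symm)
    obtain ⟨S', hS', hS''⟩ := transport F E a u₀ u τ hτ S
    refine ⟨S', by rw [hS']; exact hS, fun j hj => ?_⟩
    obtain ⟨i, hi, hij⟩ := hS'' j hj
    refine ⟨i, hi, ⟨?_, ?_⟩, ?_⟩
    · rw [hij x, hij y, ← hτ m, ← map_mul, ← map_sub, norm_tau]
    · rw [hij x, hij y, ← hτ m, ← map_mul, ← map_sub, norm_tau]
    · unfold vn
      rw [hij x, hij y, norm_tau, norm_tau]
  have hAu : ∀ u ∈ U, ‖u a₀‖ = ‖u₀ a₀‖ := fun u hu => (hUm u).mp hu a₀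
  rcases hm with hm | hm
  · have hdet : a₀⁻¹ * 1 - (-m * a₀⁻¹) * 0 = a₀⁻¹ := by ring
    refine ⟨a₀⁻¹, -m * a₀⁻¹, 0, 1, by rw [hdet]; exact inv_ne_zero ha0, ?_⟩
    refine global_step F E a hH hC hF hT ha2 x y hD hn a₀ ha0 hai _ _ _ _ hdet ?_ p U ?_ hcont
    · intro q u i
      have e : vn E (a₀⁻¹ • x + (-m * a₀⁻¹) • y) ((0 : F) • x + (1 : F) • y) i.1 =
          max ‖u a₀⁻¹ * i.1.2 (x i.1.1) + u (-m * a₀⁻¹) * i.1.2 (y i.1.1)‖
            ‖i.1.2 (y i.1.1)‖ := by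
        unfold vn
        rw [ev_lin, ev_lin, map_zero, map_one, zero_mul, one_mul, zero_add]
      rw [e]
      exact max_le (g1 q u _ _ _ (g2 q u _ _ _ (le_max_left _ _) (le_max_right _ _)))
        ((le_max_right _ _).trans (g3 q u _ (vn_nonneg _ _ _)))
    · intro u hu
      obtain ⟨S', hS', hS''⟩ := htr u hu
      refine ⟨S', hS', fun j hj => ?_⟩
      obtain ⟨i, hi, ⟨hij, -⟩, hv⟩ := hS'' j hj
      have e : vn E (a₀⁻¹ • x + (-m * a₀⁻¹) • y) ((0 : F) • x + (1 : F) • y) j.1 =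
          max ‖u a₀⁻¹ * j.1.2 (x j.1.1) + u (-m * a₀⁻¹) * j.1.2 (y j.1.1)‖
            ‖j.1.2 (y j.1.1)‖ := by
        unfold vn
        rw [ev_lin, ev_lin, map_zero, map_one, zero_mul, one_mul, zero_add]
      rw [e]
      refine max_le ?_ (le_max_right _ _)
      refine (g1 p u _ _ (‖u₀ a₀‖ * vn E x y i.1) (by rw [hij]; exact hm i hi)).trans
        (le_of_eq ?_)
      rw [hAu u hu, ← hv]
      have := (hA p u₀).ne'
      field_simp
  · have hdet : (1 : F) * a₀⁻¹ - 0 * (-m * a₀⁻¹) = a₀⁻¹ := by ring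
    refine ⟨1, 0, -m * a₀⁻¹, a₀⁻¹, by rw [hdet]; exact inv_ne_zero ha0, ?_⟩
    refine global_step F E a hH hC hF hT ha2 x y hD hn a₀ ha0 hai _ _ _ _ hdet ?_ p U ?_ hcont
    · intro q u i
      have e : vn E ((1 : F) • x + (0 : F) • y) ((-m * a₀⁻¹) • x + a₀⁻¹ • y) i.1 =
          max ‖i.1.2 (x i.1.1)‖
            ‖u a₀⁻¹ * i.1.2 (y i.1.1) + u (-m * a₀⁻¹) * i.1.2 (x i.1.1)‖ := by
        unfold vn
        rw [ev_lin, ev_lin, map_zero, map_one, zero_mul, one_mul, add_zero,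
          add_comm (u (-m * a₀⁻¹) * _)]
      rw [e]
      exact max_le ((le_max_left _ _).trans (g3 q u _ (vn_nonneg _ _ _)))
        (g1 q u _ _ _ (g2 q u _ _ _ (le_max_right _ _) (le_max_left _ _)))
    · intro u hu
      obtain ⟨S', hS', hS''⟩ := htr u hu
      refine ⟨S', hS', fun j hj => ?_⟩
      obtain ⟨i, hi, ⟨-, hij⟩, hv⟩ := hS'' j hj
      have e : vn E ((1 : F) • x + (0 : F) • y) ((-m * a₀⁻¹) • x + a₀⁻¹ • y) j.1 =
          max ‖j.1.2 (x j.1.1)‖
            ‖u a₀⁻¹ * j.1.2 (y j.1.1) + u (-m * a₀⁻¹) * j.1.2 (x j.1.1)‖ := by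
        unfold vn
        rw [ev_lin, ev_lin, map_zero, map_one, zero_mul, one_mul, add_zero,
          add_comm (u (-m * a₀⁻¹) * _)]
      rw [e]
      refine max_le (le_max_left _ _) ?_
      refine (g1 p u _ _ (‖u₀ a₀‖ * vn E x y i.1) (by rw [hij]; exact hm i hi)).trans
        (le_of_eq ?_)
      rw [hAu u hu, ← hv]
      have := (hA p u₀).ne'
      field_simp

/-- The local inequality for pairs without large classes. -/
theorem local_ineq (hC : S_CARD) (hT : S_TRANS) (x y : ∀ k, E k) (hD : Distinct F E x y)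
    (hn : 3 ≤ deg F E) {q : Nat.Primes} (u : F →+* Kp q) (κ : ℝ) (hκ : 0 ≤ κ)
    (π : Equiv.Perm (Cop F E a u))
    (h : ∀ s : Cop F E a u, κ * (vn E x y s.1.1 * vn E x y (π s).1.1) ≤
      ‖pl E x y s.1.1 (π s).1.1‖) :
    κ ^ tot F E a * VP F E a u x y ^ 2 ≤ loc F E a u x y := by
  refine le_trans ?_ (le_loc F E a u x y π)
  have hv := vn_pos F E hC hT x y hD hn q
  calc κ ^ tot F E a * VP F E a u x y ^ 2
      = ∏ s : Cop F E a u, κ * (vn E x y s.1.1 * vn E x y (π s).1.1) := by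
        unfold VP
        rw [Finset.prod_mul_distrib, Finset.prod_mul_distrib, Finset.prod_const, Finset.card_univ,
          card_cop, Equiv.prod_comp π (fun s => vn E x y s.1.1), sq]
    _ ≤ _ := Finset.prod_le_prod
        (fun s _ => mul_nonneg hκ (mul_nonneg (hv s.1.1).le (hv _).le)) fun s _ => h s

end main

theorem t_MIN (hH : S_HALL) (hF : S_FIN) (hU : S_UNR) (hC : S_CARD) (hT : S_TRANS)
    (hJ : S_CONJ) (hE : S_ELT) (hR : S_RAT) : S_MIN := by
  intro F _ _ ι _ E _ _ _ wt hn hwt1 hwt2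
  have hne : Nonempty ι := by
    by_contra hcon
    rw [not_nonempty_iff] at hcon
    unfold deg at hn
    rw [Finset.univ_eq_empty, Finset.sum_empty] at hn
    omega
  have htot2 : 2 ≤ tot F E wt := by
    obtain ⟨k⟩ := hne
    have h1 := hwt1 k
    have h2 := hwt2 k
    omega
  obtain ⟨N, hN, hU⟩ := hU ι E
  obtain ⟨N0, η, hη, hE⟩ := hE F (tot F E wt) htot2
  set M : ℕ := N * (tot F E wt).factorial with hM
  have hM0 : M ≠ 0 := mul_ne_zero hN (Nat.factorial_ne_zero _)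
  set bad : Nat.Primes → Prop := fun q => (q : ℕ) ∣ M ∨ (q : ℕ) < N0 with hbad
  have hP0 : {q : Nat.Primes | bad q}.Finite := by
    refine Set.Finite.of_finite_image (f := fun q : Nat.Primes => (q : ℕ)) ?_
      (fun a _ b _ h => Subtype.ext h)
    refine ((M.divisors.finite_toSet).union (Set.finite_lt_nat N0)).subset ?_
    rintro _ ⟨q, hq, rfl⟩
    rcases hq with hq | hq
    · exact Or.inl (Finset.mem_coe.mpr (Nat.mem_divisors.mpr ⟨hq, hM0⟩))
    · exact Or.inr hq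
  set κ₀ : Nat.Primes → ℝ := fun q => ‖(((tot F E wt).factorial : ℕ) : Kp q)‖ * η q with hκ₀
  have hfac : ∀ q : Nat.Primes, 0 < ‖(((tot F E wt).factorial : ℕ) : Kp q)‖ := by
    intro q
    refine norm_pos_iff.mpr ?_
    exact_mod_cast Nat.factorial_ne_zero _
  have hκ₀pos : ∀ q, 0 < κ₀ q := fun q => mul_pos (hfac q) (hη q)
  set cu : Nat.Primes → ℝ := fun q => if bad q then κ₀ q ^ tot F E wt else 1 with hcu
  have hcupos : ∀ q, 0 < cu q := by
    intro q
    simp only [hcu]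
    split_ifs
    · exact pow_pos (hκ₀pos q) _
    · exact one_pos
  set c : Nat.Primes → ℝ := fun q => ∏ _u : F →+* Kp q, cu q with hc
  have hcpos : ∀ q, 0 < c q := fun q => Finset.prod_pos fun _ _ => hcupos q
  refine ⟨∏ q ∈ hP0.toFinset, c q, Finset.prod_pos fun q _ => hcpos q, fun x y hD => ?_⟩
  -- minimisation
  set V : Set ℝ := {v | ∃ a b c d : F, a * d - b * c ≠ 0 ∧
    v = DD F E wt (a • x + b • y) (c • x + d • y) ^ (tot F E wt - 1)} with hV
  have hVne : V.Nonempty := ⟨_, 1, 0, 0, 1, by simp, rfl⟩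
  have hV1 : ∀ v ∈ V, 1 ≤ v := by
    rintro v ⟨a, b, c, d, h, rfl⟩
    exact one_le_pow₀ (one_le_DD F E wt hH hC hF hT hwt2 _ _ (distinct_lin F E x y hD a b c d h) hn)
  have hVbdd : BddBelow V := ⟨1, fun v hv => hV1 v hv⟩
  have hI : 1 ≤ sInf V := le_csInf hVne hV1
  obtain ⟨v, hv, hvlt⟩ := exists_lt_of_csInf_lt hVne (show sInf V < 3 / 2 * sInf V by linarith)
  obtain ⟨a, b, cc, d, hdet, rfl⟩ := hv
  refine ⟨a, b, cc, d, hdet, ?_⟩
  set X := a • x + b • y with hX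
  set Y := cc • x + d • y with hY
  have hD' : Distinct F E X Y := distinct_lin F E x y hD a b cc d hdet
  -- the local inequality
  have hloc : ∀ (q : Nat.Primes) (u : F →+* Kp q),
      cu q * VP F E wt u X Y ^ 2 ≤ loc F E wt u X Y := by
    intro q u
    have hvpos := vn_pos F E hC hT X Y hD' hn q
    obtain ⟨a₀, hai, ha0, ha1, haη, hap, haU⟩ := hE q u
    set κ : ℝ := ‖(((tot F E wt).factorial : ℕ) : Kp q)‖ * ‖u a₀‖ with hκ
    have hκpos : 0 < κ := mul_pos (hfac q) (norm_pos_iff.mpr ((map_ne_zero u).mpr ha0))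
    have hequiv : Equivalence fun i j : EmbU F E u =>
        ‖pl E X Y i.1 j.1‖ ≤ κ * (vn E X Y i.1 * vn E X Y j.1) :=
      (rel_equiv X Y hκpos.le hvpos).comap (Subtype.val)
    have hequiv2 : Equivalence fun s t : Cop F E wt u =>
        ‖pl E X Y s.1.1 t.1.1‖ ≤ κ * (vn E X Y s.1.1 * vn E X Y t.1.1) :=
      hequiv.comap (Sigma.fst)
    have hnolarge : ∀ (S : Finset (EmbU F E u)), tot F E wt < 2 * ∑ i ∈ S, wt i.1.1 →
        (∀ i ∈ S, ∀ j, j ∈ S ↔ ‖pl E X Y i.1 j.1‖ ≤ κ * (vn E X Y i.1 * vn E X Y j.1)) →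
        False := by
      intro S hS hcl
      obtain ⟨α, β, γ, δ, hdet', hle⟩ := improve F E wt hH hC hF hT hJ hR hwt1 hwt2 X Y hD' hn q
        u a₀ hai ha0 ha1 haU S hS hcl
      have hmem : DD F E wt (α • X + β • Y) (γ • X + δ • Y) ^ (tot F E wt - 1) ∈ V := by
        refine ⟨α * a + β * cc, α * b + β * d, γ * a + δ * cc, γ * b + δ * d, ?_, ?_⟩
        · have e : (α * a + β * cc) * (γ * b + δ * d) - (α * b + β * d) * (γ * a + δ * cc) =
              (α * δ - β * γ) * (a * d - b * cc) := by ring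
          rw [e]
          exact mul_ne_zero hdet' hdet
        · have e1 : α • X + β • Y = (α * a + β * cc) • x + (α * b + β * d) • y := by
            rw [hX, hY]; module
          have e2 : γ • X + δ • Y = (γ * a + δ * cc) • x + (γ * b + δ * d) • y := by
            rw [hX, hY]; module
          rw [e1, e2]
      have := csInf_le hVbdd hmem
      linarith
    obtain ⟨π, hπ⟩ := hH (Cop F E wt u) _ hequiv2 (fun s => by
      by_contra hcon
      push Not at hcon
      rw [card_cop, card_sub F E wt u (fun j : EmbU F E u =>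
        ‖pl E X Y s.1.1 j.1‖ ≤ κ * (vn E X Y s.1.1 * vn E X Y j.1))] at hcon
      refine hnolarge (Finset.univ.filter fun j : EmbU F E u =>
        ‖pl E X Y s.1.1 j.1‖ ≤ κ * (vn E X Y s.1.1 * vn E X Y j.1)) hcon ?_
      · intro i' hi' j
        rw [Finset.mem_filter] at hi' ⊢
        constructor
        · rintro ⟨-, h⟩
          exact hequiv.trans (hequiv.symm hi'.2) h
        · intro h
          exact ⟨Finset.mem_univ _, hequiv.trans hi'.2 h⟩)
    simp only [not_le] at hπ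
    simp only [hcu]
    split_ifs with hq
    · refine local_ineq F E wt hC hT X Y hD' hn u (κ₀ q) (hκ₀pos q).le π fun i => ?_
      refine le_trans (mul_le_mul_of_nonneg_right ?_
        (mul_nonneg (hvpos _).le (hvpos _).le)) (hπ i).le
      exact mul_le_mul_of_nonneg_left haη (hfac q).le
    · have hq' : ¬ (q : ℕ) ∣ M ∧ ¬ (q : ℕ) < N0 := by
        simp only [hbad] at hq
        push Not at hq ⊢
        exact hq
      have hq1 : ¬ (q : ℕ) ∣ N := fun h => hq'.1 (h.mul_right _)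
      have hq2 : ¬ (q : ℕ) ∣ (tot F E wt).factorial := fun h => hq'.1 (h.mul_left _)
      have hκq : ((q : ℕ) : ℝ)⁻¹ ≤ κ := by
        rw [hκ, norm_nat_eq q hq2, one_mul, ← one_div]
        exact hap (not_lt.mp hq'.2)
      obtain ⟨hU1, hU2⟩ := hU q hq1 X Y
      have := local_ineq F E wt hC hT X Y hD' hn u 1 zero_le_one π (fun i => by
        rw [one_mul]
        have h1 : ((q : ℕ) : ℝ)⁻¹ * (vn E X Y i.1.1 * vn E X Y (π i).1.1) <
            ‖pl E X Y i.1.1 (π i).1.1‖ :=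
          lt_of_le_of_lt (mul_le_mul_of_nonneg_right hκq
            (mul_nonneg (hvpos _).le (hvpos _).le)) (hπ i)
        obtain ⟨v, hv⟩ := (hU1 i.1.1).resolve_left (hvpos i.1.1).ne'
        obtain ⟨w, hw⟩ := (hU1 (π i).1.1).resolve_left (hvpos _).ne'
        have hq0 : (0 : ℝ) < (q : ℕ) := by exact_mod_cast q.2.pos
        have hq1 : (1 : ℝ) < (q : ℕ) := by exact_mod_cast q.2.one_lt
        have hne : pl E X Y i.1.1 (π i).1.1 ≠ 0 := by
          intro h0
          rw [h0, norm_zero] at h1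
          have : 0 < ((q : ℕ) : ℝ)⁻¹ * (vn E X Y i.1.1 * vn E X Y (π i).1.1) :=
            mul_pos (inv_pos.mpr hq0) (mul_pos (hvpos i.1.1) (hvpos _))
          linarith
        obtain ⟨z, hz⟩ := (hU2 i.1.1 (π i).1.1).resolve_left hne
        rw [hv, hw, hz, ← zpow_neg_one, ← zpow_add₀ hq0.ne', ← zpow_add₀ hq0.ne'] at h1
        rw [hv, hw, hz, ← zpow_add₀ hq0.ne']
        have h2 := (zpow_lt_zpow_iff_right₀ hq1).mp h1
        exact zpow_le_zpow_right₀ hq1.le (by omega))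
      rwa [one_pow] at this
  -- the products
  set T : Finset Nat.Primes := hP0.toFinset ∪ (good_finite F E hC hF hT X Y hD' hn).toFinset
    with hTd
  have hT1 : ∀ q, ¬ Good F E X Y q → q ∈ T := by
    intro q h
    simp only [hTd, Finset.mem_union, Set.Finite.mem_toFinset]
    exact Or.inr h
  have e1 : ∏ᶠ q : Nat.Primes, ∏ i : Emb E (Kp q), vn E X Y i ^ wt i.1 =
      ∏ q ∈ T, ∏ i : Emb E (Kp q), vn E X Y i ^ wt i.1 := by
    refine finprod_eq_prod_of_mulSupport_subset _ fun q hq => ?_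
    by_contra hcon
    have hg : Good F E X Y q := by_contra fun hg => hcon (hT1 q hg)
    exact hq (Finset.prod_eq_one fun i _ => by rw [hg.2 i, one_pow])
  have e2 : ∏ᶠ q : Nat.Primes, ∏ u : F →+* Kp q, loc F E wt u X Y =
      ∏ q ∈ T, ∏ u : F →+* Kp q, loc F E wt u X Y := by
    refine finprod_eq_prod_of_mulSupport_subset _ fun q hq => ?_
    by_contra hcon
    have hg : Good F E X Y q := by_contra fun hg => hcon (hT1 q hg)
    exact hq (Finset.prod_eq_one fun u _ => loc_good F E wt hH hwt2 X Y q hg u)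
  have e3 : ∏ q ∈ hP0.toFinset, c q = ∏ q ∈ T, c q := by
    refine Finset.prod_subset Finset.subset_union_left fun q _ hq => ?_
    refine Finset.prod_eq_one fun u _ => ?_
    simp only [hcu]
    rw [if_neg]
    intro h
    exact hq ((Set.Finite.mem_toFinset _).mpr h)
  rw [e1, e2, e3, ← Finset.prod_pow, ← Finset.prod_mul_distrib]
  refine Finset.prod_le_prod (fun q _ => mul_nonneg (hcpos q).le (sq_nonneg _)) fun q _ => ?_
  rw [prod_emb F E q, ← Finset.prod_pow, ← Finset.prod_mul_distrib]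
  refine Finset.prod_le_prod (fun u _ => mul_nonneg (hcupos q).le (sq_nonneg _)) fun u _ => ?_
  rw [← VP_eq F E wt u X Y]
  exact hloc q u

end Pool.Agent.K1H31.DW
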